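import Mathlib

set_option autoImplicit false

namespace Pool.Agent.H.MP_f2fe2b_co

noncomputable section

def B (u v : ℕ → ℝ) (k : ℕ) : ℝ :=
  if k % 2 = 0 then u (k/2) * v (k/2) else u (k/2+1) * v (k/2) + u (k/2) * v (k/2+1)

lemma B_even (u v : ℕ → ℝ) (a : ℕ) : B u v (2*a) = u a * v a := by
  have h1 : (2*a) % 2 = 0 := by omega
  have h2 : (2*a) / 2 = a := by omega
  simp only [B, h1, h2, if_true]

lemma B_odd (u v : ℕ → ℝ) (a : ℕ) : B u v (2*a+1) = u (a+1) * v a + u a * v (a+1) := by
  have h1 : ¬ ((2*a+1) % 2 = 0) := by omega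
  have h2 : (2*a+1) / 2 = a := by omega
  simp only [B, h1, h2, if_false]

def op (x y : ℕ → ℝ) (k : ℕ) : ℝ := x k + y k + B x y k

def c : ℕ → ℕ → ℝ
  | 0 => fun _ => 0
  | 1 => fun k => if k = 1 then 1 else 0
  | (n+2) => op (c ((n+3)/2)) (c ((n+2)/2))
  decreasing_by all_goals omega

lemma c0 (k : ℕ) : c 0 k = 0 := by rw [c]
lemma c1 (k : ℕ) : c 1 k = if k = 1 then 1 else 0 := by rw [c]

lemma B_comm (u v : ℕ → ℝ) (k : ℕ) : B u v k = B v u k := by
  obtain ⟨a, rfl | rfl⟩ := Nat.even_or_odd' k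
  · rw [B_even, B_even]; ring
  · rw [B_odd, B_odd]; ring

lemma op_comm (u v : ℕ → ℝ) : op u v = op v u := by
  funext k; simp only [op, B_comm u v k]; ring

lemma c_rec (n k : ℕ) : c n k = c ((n+1)/2) k + c (n/2) k + B (c ((n+1)/2)) (c (n/2)) k := by
  match n with
  | 0 =>
    obtain ⟨a, rfl | rfl⟩ := Nat.even_or_odd' k
    · simp [B_even, c0]
    · simp [B_odd, c0]
  | 1 =>
    obtain ⟨a, rfl | rfl⟩ := Nat.even_or_odd' k
    · simp [B_even, c0]
    · simp [B_odd, c0]
  | (n+2) =>
    conv_lhs => rw [c]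
    rfl

lemma c_even (p k : ℕ) : c (2*p) k = c p k + c p k + B (c p) (c p) k := by
  have h := c_rec (2*p) k
  have h1 : (2*p+1)/2 = p := by omega
  have h2 : (2*p)/2 = p := by omega
  rw [h1, h2] at h; exact h

lemma c_odd (p k : ℕ) : c (2*p+1) k = c (p+1) k + c p k + B (c (p+1)) (c p) k := by
  have h := c_rec (2*p+1) k
  have h1 : (2*p+1+1)/2 = p+1 := by omega
  have h2 : (2*p+1)/2 = p := by omega
  rw [h1, h2] at h; exact h

lemma B_nonneg {u v : ℕ → ℝ} (hu : ∀ k, 0 ≤ u k) (hv : ∀ k, 0 ≤ v k) (k : ℕ) : 0 ≤ B u v k := by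
  obtain ⟨a, rfl | rfl⟩ := Nat.even_or_odd' k
  · rw [B_even]; exact mul_nonneg (hu _) (hv _)
  · rw [B_odd]; exact add_nonneg (mul_nonneg (hu _) (hv _)) (mul_nonneg (hu _) (hv _))

lemma B_mono {u v u' v' : ℕ → ℝ} (hu : ∀ k, 0 ≤ u k) (hv : ∀ k, 0 ≤ v k)
    (h1 : ∀ k, u k ≤ u' k) (h2 : ∀ k, v k ≤ v' k) (k : ℕ) : B u v k ≤ B u' v' k := by
  have hu' : ∀ k, 0 ≤ u' k := fun k => (hu k).trans (h1 k)
  obtain ⟨a, rfl | rfl⟩ := Nat.even_or_odd' k
  · rw [B_even, B_even]; exact mul_le_mul (h1 _) (h2 _) (hv _) (hu' _)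
  · rw [B_odd, B_odd]
    exact add_le_add (mul_le_mul (h1 _) (h2 _) (hv _) (hu' _)) (mul_le_mul (h1 _) (h2 _) (hv _) (hu' _))

lemma c_nonneg (n : ℕ) : ∀ k, 0 ≤ c n k := by
  induction n using Nat.strong_induction_on with
  | _ n ih =>
    intro k
    rcases Nat.lt_or_ge n 2 with h | h
    · interval_cases n
      · rw [c0]
      · rw [c1]; split_ifs <;> norm_num
    · rw [c_rec]
      have h1 := ih ((n+1)/2) (by omega)
      have h2 := ih (n/2) (by omega)
      have := B_nonneg h1 h2 k
      have := h1 k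
      have := h2 k
      linarith

lemma c_zero (n : ℕ) : c n 0 = 0 := by
  induction n using Nat.strong_induction_on with
  | _ n ih =>
    rcases Nat.lt_or_ge n 2 with h | h
    · interval_cases n
      · rw [c0]
      · rw [c1]; simp
    · rw [c_rec]
      have h1 := ih ((n+1)/2) (by omega)
      have h2 := ih (n/2) (by omega)
      have := B_even (c ((n+1)/2)) (c (n/2)) 0
      simp only [mul_zero] at this
      rw [this, h1, h2]; ring

def D (n k : ℕ) : ℝ := c (n+1) k - c n k

lemma D_zero (n : ℕ) : D n 0 = 0 := by simp [D, c_zero]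

lemma D_even (p k : ℕ) : D (2*p) k = D p k + B (D p) (c p) k := by
  simp only [D]
  rw [c_odd, c_even]
  obtain ⟨a, rfl | rfl⟩ := Nat.even_or_odd' k
  · simp only [B_even, D]; ring
  · simp only [B_odd, D]; ring

lemma D_odd (p k : ℕ) : D (2*p+1) k = D p k + B (D p) (c (p+1)) k := by
  simp only [D]
  have : 2*p+1+1 = 2*(p+1) := by ring
  rw [this, c_odd, c_even]
  obtain ⟨a, rfl | rfl⟩ := Nat.even_or_odd' k
  · simp only [B_even, D]; ring
  · simp only [B_odd, D]; ring

lemma D_rec (n k : ℕ) : D n k = D (n/2) k + B (D (n/2)) (c ((n+1)/2)) k := by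
  obtain ⟨p, rfl | rfl⟩ := Nat.even_or_odd' n
  · have h1 : (2*p+1)/2 = p := by omega
    have h2 : (2*p)/2 = p := by omega
    rw [h1, h2, D_even]
  · have h1 : (2*p+1+1)/2 = p+1 := by omega
    have h2 : (2*p+1)/2 = p := by omega
    rw [h1, h2, D_odd]

lemma D_nonneg (n : ℕ) : ∀ k, 0 ≤ D n k := by
  induction n using Nat.strong_induction_on with
  | _ n ih =>
    intro k
    rcases Nat.eq_zero_or_pos n with rfl | h
    · simp only [D, c0]; have := c_nonneg (0+1) k; linarith
    · rw [D_rec]
      have h2 := ih (n/2) (by omega)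
      have := B_nonneg h2 (c_nonneg ((n+1)/2)) k
      have := h2 k
      linarith

lemma c_succ (n k : ℕ) : c (n+1) k = c n k + D n k := by simp [D]

lemma c_mono {n m : ℕ} (h : n ≤ m) (k : ℕ) : c n k ≤ c m k := by
  induction m, h using Nat.le_induction with
  | base => exact le_rfl
  | succ m _ ih => rw [c_succ]; have := D_nonneg m k; linarith

lemma c_one (n : ℕ) : c n 1 = n := by
  induction n using Nat.strong_induction_on with
  | _ n ih =>
    rcases Nat.lt_or_ge n 2 with h | h
    · interval_cases n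
      · rw [c0]; simp
      · rw [c1]; simp
    · obtain ⟨p, rfl | rfl⟩ := Nat.even_or_odd' n
      · have e := B_odd (c p) (c p) 0
        simp only [mul_zero, zero_add, c_zero] at e
        rw [c_even, e, ih p (by omega)]; push_cast; ring
      · have e := B_odd (c (p+1)) (c p) 0
        simp only [mul_zero, zero_add, c_zero] at e
        rw [c_odd, e, ih p (by omega), ih (p+1) (by omega)]; push_cast; ring

lemma c_two (n : ℕ) : c n 2 = n * (n-1) / 2 := by
  induction n using Nat.strong_induction_on with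
  | _ n ih =>
    rcases Nat.lt_or_ge n 2 with h | h
    · interval_cases n
      · rw [c0]; simp
      · rw [c1]; simp
    · obtain ⟨p, rfl | rfl⟩ := Nat.even_or_odd' n
      · have e := B_even (c p) (c p) 1
        simp only [mul_one, c_one] at e
        rw [c_even, e, ih p (by omega)]; push_cast; ring
      · have e := B_even (c (p+1)) (c p) 1
        simp only [mul_one, c_one] at e
        rw [c_odd, e, ih p (by omega), ih (p+1) (by omega)]; push_cast; ring

lemma c_three (n : ℕ) : c n 3 = n * (n-1) * (n-2) / 6 := by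
  induction n using Nat.strong_induction_on with
  | _ n ih =>
    rcases Nat.lt_or_ge n 2 with h | h
    · interval_cases n
      · rw [c0]; simp
      · rw [c1]; simp
    · obtain ⟨p, rfl | rfl⟩ := Nat.even_or_odd' n
      · have e := B_odd (c p) (c p) 1
        simp only [mul_one, Nat.reduceAdd, c_one, c_two] at e
        rw [c_even, e, ih p (by omega)]; push_cast; ring
      · have e := B_odd (c (p+1)) (c p) 1
        simp only [mul_one, Nat.reduceAdd, c_one, c_two] at e
        rw [c_odd, e, ih p (by omega), ih (p+1) (by omega)]; push_cast; ring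

lemma D_one (n : ℕ) : D n 1 = 1 := by simp only [D, c_one]; push_cast; ring
lemma D_two (n : ℕ) : D n 2 = n := by simp only [D, c_two]; push_cast; ring
lemma D_three (n : ℕ) : D n 3 = n * (n-1) / 2 := by simp only [D, c_three]; push_cast; ring

lemma supp (n : ℕ) : ∀ k, 1 ≤ k → c n k = 0 → c n (k+1) = 0 := by
  induction n using Nat.strong_induction_on with
  | _ n ih =>
    intro k hk h0
    rcases Nat.lt_or_ge n 2 with h | h
    · interval_cases n
      · rw [c0]
      · rw [c1]; rw [if_neg (by omega)]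
    · rw [c_rec] at h0 ⊢
      have h1 := ih ((n+1)/2) (by omega)
      have h2 := ih (n/2) (by omega)
      set y := c ((n+1)/2) with hy
      set o := c (n/2) with ho
      have ny : ∀ k, 0 ≤ y k := c_nonneg _
      have no : ∀ k, 0 ≤ o k := c_nonneg _
      have hb := B_nonneg ny no k
      have e1 : y k = 0 := by have := ny k; have := no k; linarith
      have e2 : o k = 0 := by have := ny k; have := no k; linarith
      have e3 : B y o k = 0 := by have := ny k; have := no k; linarith
      rw [h1 k hk e1, h2 k hk e2]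
      obtain ⟨a, rfl | rfl⟩ := Nat.even_or_odd' k
      · rw [B_even] at e3
        rw [B_odd]
        rcases mul_eq_zero.1 e3 with e | e
        · rw [h1 a (by omega) e, e]; ring
        · rw [h2 a (by omega) e, e]; ring
      · rw [B_odd] at e3
        have : 2*a+1+1 = 2*(a+1) := by ring
        rw [this, B_even]
        rcases Nat.eq_zero_or_pos a with rfl | ha
        · simp only [mul_zero, zero_add] at e1 ⊢
          rw [e1]; ring
        · have e4 : y (a+1) * o a = 0 := by
            have := mul_nonneg (ny (a+1)) (no a)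
            have := mul_nonneg (ny a) (no (a+1))
            linarith
          rcases mul_eq_zero.1 e4 with e | e
          · rw [e]; ring
          · rw [h2 a ha e]; ring

/-- the balancing inequality for grandchildren -/
lemma bal4 (n : ℕ) (k : ℕ) :
    2 * (B (c (((n+1)/2+1)/2)) (c (((n+1)/2)/2)) k + B (c ((n/2+1)/2)) (c (n/2/2)) k)
      ≤ B (fun i => c (((n+1)/2+1)/2) i + c (((n+1)/2)/2) i)
          (fun i => c ((n/2+1)/2) i + c (n/2/2) i) k := by
  obtain ⟨q, r, hr, rfl⟩ : ∃ q r, r < 4 ∧ n = 4*q + r := ⟨n/4, n%4, by omega, by omega⟩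
  interval_cases r
  · have h1 : ((4*q+0+1)/2+1)/2 = q := by omega
    have h2 : ((4*q+0+1)/2)/2 = q := by omega
    have h3 : ((4*q+0)/2+1)/2 = q := by omega
    have h4 : (4*q+0)/2/2 = q := by omega
    rw [h1, h2, h3, h4]
    obtain ⟨a, rfl | rfl⟩ := Nat.even_or_odd' k
    · simp only [B_even]; apply le_of_eq; ring
    · simp only [B_odd]; apply le_of_eq; ring
  · have h1 : ((4*q+1+1)/2+1)/2 = q+1 := by omega
    have h2 : ((4*q+1+1)/2)/2 = q := by omega
    have h3 : ((4*q+1)/2+1)/2 = q := by omega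
    have h4 : (4*q+1)/2/2 = q := by omega
    rw [h1, h2, h3, h4]
    obtain ⟨a, rfl | rfl⟩ := Nat.even_or_odd' k
    · simp only [B_even]; apply le_of_eq; ring
    · simp only [B_odd]; apply le_of_eq; ring
  · have h1 : ((4*q+2+1)/2+1)/2 = q+1 := by omega
    have h2 : ((4*q+2+1)/2)/2 = q := by omega
    have h3 : ((4*q+2)/2+1)/2 = q+1 := by omega
    have h4 : (4*q+2)/2/2 = q := by omega
    rw [h1, h2, h3, h4]
    obtain ⟨a, rfl | rfl⟩ := Nat.even_or_odd' k
    · simp only [B_even]
      have := sq_nonneg (c (q+1) a - c q a)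
      nlinarith
    · simp only [B_odd]
      have e1 := c_mono (Nat.le_succ q) a
      have e2 := c_mono (Nat.le_succ q) (a+1)
      have := mul_nonneg (sub_nonneg.2 e1) (sub_nonneg.2 e2)
      simp only [Nat.succ_eq_add_one] at this
      nlinarith
  · have h1 : ((4*q+3+1)/2+1)/2 = q+1 := by omega
    have h2 : ((4*q+3+1)/2)/2 = q+1 := by omega
    have h3 : ((4*q+3)/2+1)/2 = q+1 := by omega
    have h4 : (4*q+3)/2/2 = q := by omega
    rw [h1, h2, h3, h4]
    obtain ⟨a, rfl | rfl⟩ := Nat.even_or_odd' k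
    · simp only [B_even]; apply le_of_eq; ring
    · simp only [B_odd]; apply le_of_eq; ring

/-- growth of `c` under doubling -/
lemma growC (n : ℕ) : ∀ k, 2^k * (c ((n+1)/2) (k+1) + c (n/2) (k+1)) ≤ c n (k+1) := by
  induction n using Nat.strong_induction_on with
  | _ n ih =>
    intro k
    rcases Nat.eq_zero_or_pos k with rfl | hk
    · rw [c_rec n]
      have := B_nonneg (c_nonneg ((n+1)/2)) (c_nonneg (n/2)) (0+1)
      simp only [pow_zero, one_mul]; linarith
    rcases Nat.lt_or_ge n 2 with h | h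
    · interval_cases n
      · simp [c0]
      · have : c 1 (k+1) = 0 := by rw [c1, if_neg (by omega)]
        simp [c0, this]
    · have h1 := ih ((n+1)/2) (by omega)
      have h2 := ih (n/2) (by omega)
      have hb := bal4 n (k+1)
      have r1 := c_rec ((n+1)/2) (k+1)
      have r2 := c_rec (n/2) (k+1)
      have r0 := c_rec n (k+1)
      set y := c ((n+1)/2) with hy
      set o := c (n/2) with ho
      set y1 := c (((n+1)/2+1)/2) with hy1
      set y2 := c (((n+1)/2)/2) with hy2
      set o1 := c ((n/2+1)/2) with ho1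
      set o2 := c (n/2/2) with ho2
      have key : 2^k * (B y1 y2 (k+1) + B o1 o2 (k+1)) ≤ B y o (k+1) := by
        have n1 : ∀ i, 0 ≤ y1 i + y2 i := fun i => add_nonneg (c_nonneg _ _) (c_nonneg _ _)
        have n2 : ∀ i, 0 ≤ o1 i + o2 i := fun i => add_nonneg (c_nonneg _ _) (c_nonneg _ _)
        obtain ⟨a, ha | ha⟩ := Nat.even_or_odd' (k+1)
        · obtain ⟨b, rfl⟩ : ∃ b, a = b+1 := ⟨a-1, by omega⟩
          have hk2 : k = 2*b+1 := by omega
          rw [ha] at hb ⊢
          rw [B_even y o]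
          rw [B_even (fun i => y1 i + y2 i)] at hb
          have m1 := mul_le_mul (h1 b) (h2 b) (mul_nonneg (by positivity) (n2 _)) (c_nonneg _ _)
          have e : (2:ℝ)^k = 2 * (2^b * 2^b) := by rw [hk2]; ring
          have m2 := mul_le_mul_of_nonneg_left hb (by positivity : (0:ℝ) ≤ 2^b * 2^b)
          rw [e]
          linarith
        · obtain ⟨b, rfl⟩ : ∃ b, a = b+1 := ⟨a-1, by omega⟩
          have hk2 : k = 2*b+2 := by omega
          rw [ha] at hb ⊢
          rw [B_odd y o]
          rw [B_odd (fun i => y1 i + y2 i)] at hb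
          have m1 := mul_le_mul (h1 (b+1)) (h2 b) (mul_nonneg (by positivity) (n2 _)) (c_nonneg _ _)
          have m1' := mul_le_mul (h1 b) (h2 (b+1)) (mul_nonneg (by positivity) (n2 _)) (c_nonneg _ _)
          have e : (2:ℝ)^k = 2 * (2^b * 2^(b+1)) := by rw [hk2]; ring
          have m2 := mul_le_mul_of_nonneg_left hb (by positivity : (0:ℝ) ≤ 2^b * 2^(b+1))
          rw [e]
          linarith
      have a1 := h1 k
      have a2 := h2 k
      rw [r0]
      have : (2:ℝ)^k * y (k+1) = 2^k * (y1 (k+1) + y2 (k+1)) + 2^k * B y1 y2 (k+1) := by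
        rw [r1]; ring
      have : (2:ℝ)^k * o (k+1) = 2^k * (o1 (k+1) + o2 (k+1)) + 2^k * B o1 o2 (k+1) := by
        rw [r2]; ring
      linarith

end

end Pool.Agent.H.MP_f2fe2b_co
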