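import Pool.Agent.H.MP_f2fe2b_co.A

set_option autoImplicit false

namespace Pool.Agent.H.MP_f2fe2b_co

noncomputable section

lemma D4 (n : ℕ) : 7 * D n 4 ≤ n * (n * (n-1) / 2) := by
  induction n using Nat.strong_induction_on with
  | _ n ih =>
    rcases Nat.eq_zero_or_pos n with rfl | h
    · simp [D, c0, c1]
    · obtain ⟨p, rfl | rfl⟩ := Nat.even_or_odd' n
      · have e := B_even (D p) (c p) 2
        simp only [Nat.reduceMul, D_two, c_two] at e
        have i := ih p (by omega)
        rw [D_even, e]; push_cast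
        have hp : (0:ℝ) ≤ p := by positivity
        have := mul_nonneg hp hp
        nlinarith
      · have e := B_even (D p) (c (p+1)) 2
        simp only [Nat.reduceMul, D_two, c_two] at e
        have i := ih p (by omega)
        rw [D_odd, e]; push_cast
        have hp : (0:ℝ) ≤ p := by positivity
        have := mul_nonneg hp hp
        nlinarith

lemma T3 (n : ℕ) : 4 * c n 4 ≤ (n - 2) * D n 4 := by
  induction n using Nat.strong_induction_on with
  | _ n ih =>
    rcases Nat.lt_or_ge n 2 with h | h
    · interval_cases n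
      · simp [D, c0, c1]
      · have e := D_odd 0 4
        have e2 := B_even (D 0) (c (0+1)) 2
        simp only [Nat.reduceMul, D_two, c_two] at e e2
        have e3 : D 0 4 = 0 := by simp [D, c0, c1]
        rw [e2, e3] at e
        simp only [zero_add] at e
        rw [e, c1]; simp
    · obtain ⟨p, rfl | rfl⟩ := Nat.even_or_odd' n
      · have e := B_even (D p) (c p) 2
        have e' := B_even (c p) (c p) 2
        simp only [Nat.reduceMul, D_two, c_two] at e e'
        have i := ih p (by omega)
        have := D_nonneg p 4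
        rw [D_even, c_even, e, e']; push_cast
        nlinarith
      · have e := B_even (D p) (c (p+1)) 2
        have e' := B_even (c (p+1)) (c p) 2
        simp only [Nat.reduceMul, D_two, c_two] at e e'
        have i := ih p (by omega)
        have i4 := D4 p
        have := D_nonneg p 4
        rw [D_odd, c_odd, e, e', c_succ]; push_cast
        have hp : (0:ℝ) ≤ p := by positivity
        have h2 := mul_nonneg hp hp
        have h3 := mul_nonneg h2 hp
        nlinarith

lemma Q4 (n : ℕ) : 3 * c n 5 ≤ (n - 2) * c n 4 := by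
  have aux : ∀ n : ℕ, 3 * c n 5 ≤ (n - 2) * c n 4 := by
    intro n
    induction n using Nat.strong_induction_on with
    | _ n ih =>
      rcases Nat.lt_or_ge n 2 with h | h
      · interval_cases n
        · simp [c0]
        · simp [c1]
      · obtain ⟨p, rfl | rfl⟩ := Nat.even_or_odd' n
        · have e := B_even (c p) (c p) 2
          have e' := B_odd (c p) (c p) 2
          simp only [Nat.reduceMul, Nat.reduceAdd] at e e'
          have i := ih p (by omega)
          have n4 := c_nonneg p 4
          have n2 := c_nonneg p 2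
          have r : c p 3 = c p 2 * (p - 2) / 3 := by rw [c_three, c_two]; ring
          rw [c_even, c_even, e, e', r]; push_cast
          have hp : (0:ℝ) ≤ p := by positivity
          have h2 := mul_nonneg hp n4
          have h3 := mul_nonneg n2 n2
          nlinarith
        · have e := B_even (c (p+1)) (c p) 2
          have e' := B_odd (c (p+1)) (c p) 2
          simp only [Nat.reduceMul, Nat.reduceAdd] at e e'
          have i := ih p (by omega)
          have i' := ih (p+1) (by omega)
          have n4 := c_nonneg p 4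
          have n4' := c_nonneg (p+1) 4
          have n2 := c_nonneg p 2
          have n2' := c_nonneg (p+1) 2
          have r : c p 3 = c p 2 * (p - 2) / 3 := by rw [c_three, c_two]; ring
          have r' : c (p+1) 3 = c (p+1) 2 * (p - 1) / 3 := by rw [c_three, c_two]; push_cast; ring
          rw [c_odd, c_odd, e, e', r, r']; push_cast at i' ⊢
          have hp : (0:ℝ) ≤ p := by positivity
          have h2 := mul_nonneg hp n4
          have h2' := mul_nonneg hp n4'
          have h3 := mul_nonneg n2 n2'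
          nlinarith
  exact aux n

lemma y_le (n k : ℕ) : 2^k * c ((n+1)/2) (k+1) ≤ c n (k+1) := by
  have h := growC n k
  have := c_nonneg (n/2) (k+1)
  have h2 : (0:ℝ) ≤ 2^k * c (n/2) (k+1) := by positivity
  linarith

lemma ex1 (b : ℕ) (h : 2 ≤ b) : 3*(2*(b+1))/4 ≤ 3*(b+1)/4 + b := by
  obtain ⟨q, r, hr, rfl⟩ : ∃ q r, r < 4 ∧ b = 4*q + r := ⟨b/4, b%4, by omega, by omega⟩
  interval_cases r <;> omega

lemma ex2 (b : ℕ) (h : 1 ≤ b) : 3*(2*(b+1)+1)/4 ≤ 3*(b+1+1)/4 + b := by
  obtain ⟨q, r, hr, rfl⟩ : ∃ q r, r < 4 ∧ b = 4*q + r := ⟨b/4, b%4, by omega, by omega⟩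
  interval_cases r <;> omega

/-- growth of `D` under doubling -/
lemma growD (n : ℕ) : ∀ k, 1 ≤ k → (2^(3*k/4) - 1) * D n k ≤ B (D n) (c n) k := by
  induction n using Nat.strong_induction_on with
  | _ n ih =>
    intro k hk
    have hn : (0:ℝ) ≤ n := by positivity
    rcases Nat.lt_or_ge k 5 with h5 | h5
    · interval_cases k
      · have := B_nonneg (D_nonneg n) (c_nonneg n) 1
        simpa using this
      · have e := B_even (D n) (c n) 1
        simp only [mul_one, D_one, c_one] at e
        rw [e, D_two]; norm_num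
      · have e := B_odd (D n) (c n) 1
        simp only [mul_one, Nat.reduceAdd, D_one, c_one, D_two, c_two] at e
        rw [e, D_three]; norm_num
        nlinarith
      · have e := B_even (D n) (c n) 2
        simp only [Nat.reduceMul, D_two, c_two] at e
        rw [e]
        have := D4 n
        norm_num
        linarith
    rcases Nat.eq_zero_or_pos n with rfl | h
    · have : D 0 k = 0 := by
        simp only [D, c0, zero_add, c1]; rw [if_neg (by omega)]; ring
      rw [this]
      have := B_nonneg (D_nonneg 0) (c_nonneg 0) k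
      simpa using this
    have i := ih (n/2) (by omega)
    set d := D (n/2) with hd
    set y := c ((n+1)/2) with hy
    have nd : ∀ k, 0 ≤ d k := D_nonneg _
    have ny : ∀ k, 0 ≤ y k := c_nonneg _
    have i2 : ∀ k, 1 ≤ k → (2^(3*k/4) - 1) * d k ≤ B d y k := fun k hk =>
      (i k hk).trans (B_mono nd (c_nonneg _) (fun _ => le_rfl) (c_mono (by omega)) k)
    have r : ∀ k, D n k = d k + B d y k := D_rec n
    have g1 : ∀ k, 1 ≤ k → 2^(3*k/4) * d k ≤ D n k := fun k hk => by
      have := i2 k hk; rw [r]; linarith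
    have g2 : ∀ k, 2^k * y (k+1) ≤ c n (k+1) := y_le n
    have key : 2^(3*k/4) * B d y k ≤ B (D n) (c n) k := by
      obtain ⟨a, ha | ha⟩ := Nat.even_or_odd' k
      · obtain ⟨b, rfl⟩ : ∃ b, a = b+1 := ⟨a-1, by omega⟩
        rw [ha, B_even, B_even]
        have m := mul_le_mul (g1 (b+1) (by omega)) (g2 b) (mul_nonneg (by positivity) (ny _)) (D_nonneg _ _)
        have e : (2:ℝ)^(3*(2*(b+1))/4) ≤ 2^(3*(b+1)/4) * 2^b := by
          rw [← pow_add]; exact pow_le_pow_right₀ (by norm_num) (ex1 b (by omega))
        have m2 := mul_le_mul_of_nonneg_right e (mul_nonneg (nd (b+1)) (ny (b+1)))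
        linarith
      · obtain ⟨b, rfl⟩ : ∃ b, a = b+1 := ⟨a-1, by omega⟩
        rw [ha, B_odd, B_odd]
        have m := mul_le_mul (g1 (b+1+1) (by omega)) (g2 b) (mul_nonneg (by positivity) (ny _)) (D_nonneg _ _)
        have m' := mul_le_mul (g1 (b+1) (by omega)) (g2 (b+1)) (mul_nonneg (by positivity) (ny _)) (D_nonneg _ _)
        have e : (2:ℝ)^(3*(2*(b+1)+1)/4) ≤ 2^(3*(b+1+1)/4) * 2^b := by
          rw [← pow_add]; exact pow_le_pow_right₀ (by norm_num) (ex2 b (by omega))
        have e' : (2:ℝ)^(3*(2*(b+1)+1)/4) ≤ 2^(3*(b+1)/4) * 2^(b+1) := by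
          rw [← pow_add]; exact pow_le_pow_right₀ (by norm_num) (by omega)
        have m2 := mul_le_mul_of_nonneg_right e (mul_nonneg (nd (b+1+1)) (ny (b+1)))
        have m2' := mul_le_mul_of_nonneg_right e' (mul_nonneg (nd (b+1)) (ny (b+1+1)))
        linarith
    have a1 := i2 k hk
    rw [r]
    linarith

def tN (k : ℕ) : ℕ :=
  if k ≤ 3 then k else if k = 4 then 22 else if k = 5 then 48 else if k = 6 then 18
  else if k = 7 then 11 else 2^(k/2+5)

def t (k : ℕ) : ℝ := tN k

lemma t_nonneg (k : ℕ) : 0 ≤ t k := by unfold t; positivity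

lemma num (k : ℕ) (hk : 5 ≤ k) :
    (2 * t (k/2) + 1) * 2^(3*k/4) * 2^k + t k * (2 * t (k/2) + 1) * ((2^(3*k/4) - 1) + (2^k - 1))
      ≤ t k * (2^(3*k/4) - 1) * (2^k - 1) := by
  rcases Nat.lt_or_ge k 20 with h | h
  · interval_cases k <;> simp only [t, tN] <;> norm_num
  · have e1 : t k = 2^(k/2+5) := by
      simp only [t, tN]
      rw [if_neg (by omega), if_neg (by omega), if_neg (by omega), if_neg (by omega), if_neg (by omega)]
      push_cast; ring
    have e2 : t (k/2) = 2^(k/2/2+5) := by
      simp only [t, tN]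
      rw [if_neg (by omega), if_neg (by omega), if_neg (by omega), if_neg (by omega), if_neg (by omega)]
      push_cast; ring
    rw [e1, e2]
    set P : ℝ := 2^(k/2/2+5) with hP
    have hP1 : 1 ≤ P := one_le_pow₀ (by norm_num)
    have f1 : 32 * P ≤ 2^(k/2+5) := by
      have : (32:ℝ) * P = 2^(k/2/2+5+5) := by rw [hP]; ring
      rw [this]; exact pow_le_pow_right₀ (by norm_num) (by omega)
    have f2 : 32 * P ≤ 2^(3*k/4) := by
      have : (32:ℝ) * P = 2^(k/2/2+5+5) := by rw [hP]; ring
      rw [this]; exact pow_le_pow_right₀ (by norm_num) (by omega)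
    have f3 : 32 * P ≤ 2^k := by
      have : (32:ℝ) * P = 2^(k/2/2+5+5) := by rw [hP]; ring
      rw [this]; exact pow_le_pow_right₀ (by norm_num) (by omega)
    set x : ℝ := 2^(k/2+5)
    set G : ℝ := 2^(3*k/4)
    set H : ℝ := 2^k
    have hT : 2*P+1 ≤ 3*P := by linarith
    have s1 : 4 * (2*P+1) ≤ G - 1 := by linarith
    have s2 : 4 * (2*P+1) ≤ H - 1 := by linarith
    have s3 : 8 * (2*P+1) ≤ x := by linarith
    have s4 : G ≤ 2 * (G-1) := by linarith
    have s5 : H ≤ 2 * (H-1) := by linarith
    have p1 : 0 ≤ G - 1 := by linarith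
    have p2 : 0 ≤ H - 1 := by linarith
    have p3 : 0 ≤ x := by linarith
    have p4 : 0 ≤ 2*P+1 := by linarith
    have m1 : G * H ≤ (2*(G-1)) * (2*(H-1)) := mul_le_mul s4 s5 (by linarith) (by linarith)
    have m2 := mul_le_mul_of_nonneg_left m1 p4
    have m3 := mul_le_mul_of_nonneg_right s3 (mul_nonneg p1 p2)
    have m4 := mul_le_mul_of_nonneg_right s1 (mul_nonneg p3 p2)
    have m5 := mul_le_mul_of_nonneg_right s2 (mul_nonneg p3 p1)
    linarith

/-- abstract quartic estimate, even index -/
lemma quartE (oa ob da db ya yb tt : ℝ) (h1 : 0 ≤ oa) (h3 : 0 ≤ da)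
    (hW : 0 ≤ oa * db - ob * da) (hT : ob * da ≤ tt * (oa * db - ob * da))
    (hy : (ya = oa ∧ yb = ob) ∨ (ya = oa + da ∧ yb = ob + db)) :
    (yb * oa + ya * ob) * (da * ya) ≤
      (2*tt+1) * ((ya * oa) * (db * ya + da * yb) - (yb * oa + ya * ob) * (da * ya)) := by
  set W := oa * db - ob * da with hWd
  have e : (ya * oa) * (db * ya + da * yb) - (yb * oa + ya * ob) * (da * ya) = ya * ya * W := by
    rw [hWd]; ring
  rw [e]
  rcases hy with ⟨rfl, rfl⟩ | ⟨rfl, rfl⟩
  · have m := mul_le_mul_of_nonneg_left hT (mul_nonneg h1 h1)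
    have m2 := mul_nonneg (mul_nonneg h1 h1) hW
    nlinarith
  · have hy : 0 ≤ oa + da := by linarith
    have m := mul_le_mul_of_nonneg_left hT (mul_nonneg hy hy)
    have m2 := mul_nonneg (mul_nonneg hy h1) hW
    have e2 : ((ob + db) * oa + (oa + da) * ob) * (da * (oa + da))
        = 2 * ((oa + da) * (oa + da) * (ob * da)) + (oa + da) * da * W := by rw [hWd]; ring
    rw [e2]
    nlinarith

/-- abstract quartic estimate, odd index -/
lemma quartO (oa ob da db ya yb tt : ℝ) (h2 : 0 ≤ ob) (h4 : 0 ≤ db)
    (hW : 0 ≤ oa * db - ob * da) (hT : ob * da ≤ tt * (oa * db - ob * da))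
    (hy : (ya = oa ∧ yb = ob) ∨ (ya = oa + da ∧ yb = ob + db)) :
    (yb * ob) * (db * ya + da * yb) ≤
      (2*tt+1) * ((yb * oa + ya * ob) * (db * yb) - (yb * ob) * (db * ya + da * yb)) := by
  set W := oa * db - ob * da with hWd
  have e : (yb * oa + ya * ob) * (db * yb) - (yb * ob) * (db * ya + da * yb) = yb * yb * W := by
    rw [hWd]; ring
  rw [e]
  rcases hy with ⟨rfl, rfl⟩ | ⟨rfl, rfl⟩
  · have m := mul_le_mul_of_nonneg_left hT (mul_nonneg h2 h2)
    have e2 : (yb * yb) * (db * ya + da * yb) = 2 * (yb * yb * (yb * da)) + yb * yb * W := by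
      rw [hWd]; ring
    rw [e2]
    nlinarith
  · have hy : 0 ≤ ob + db := by linarith
    have m := mul_le_mul_of_nonneg_left hT (mul_nonneg hy hy)
    have m2 := mul_nonneg (mul_nonneg hy h4) hW
    have e2 : ((ob + db) * ob) * (db * (oa + da) + da * (ob + db))
        = 2 * ((ob + db) * (ob + db) * (ob * da)) + (ob + db) * ob * W := by rw [hWd]; ring
    rw [e2]
    nlinarith

end

end Pool.Agent.H.MP_f2fe2b_co
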