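import Pool.Agent.H.MP_f2fe2b_co.B

set_option autoImplicit false

namespace Pool.Agent.H.MP_f2fe2b_co

noncomputable section

lemma t_pos (k : ℕ) (hk : 1 ≤ k) : 0 < t k := by
  unfold t tN
  split_ifs
  · exact_mod_cast hk
  all_goals positivity

lemma fin5 (s0 s1 P0 P1 d0 d1 E0 E1 T G H tt : ℝ) (n1 : 0 ≤ s0) (n2 : 0 ≤ s1) (n3 : 0 ≤ P0)
    (n4 : 0 ≤ P1) (n5 : 0 ≤ d0) (n6 : 0 ≤ d1) (n7 : 0 ≤ E0) (n8 : 0 ≤ E1)
    (hT : 0 < T) (hG : 1 < G) (hH : 1 < H) (ht : 0 ≤ tt)
    (h1 : 0 ≤ s0 * d1 - s1 * d0) (h2 : P1 * E0 ≤ T * (P0 * E1 - P1 * E0))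
    (h3 : (G-1) * d0 ≤ E0) (h4 : H * s1 ≤ s1 + P1)
    (h5 : T * G * H + tt * T * ((G-1) + (H-1)) ≤ tt * (G-1) * (H-1)) :
    (s1+P1) * (d0+E0) ≤ tt * ((s0+P0) * (d1+E1) - (s1+P1) * (d0+E0)) := by
  set g := G - 1 with hg
  set h := H - 1 with hh
  have gp : 0 < g := by linarith
  have hp : 0 < h := by linarith
  have X : 0 ≤ P1 * E0 := mul_nonneg n4 n7
  have a1 : h * (s1+P1) ≤ H * P1 := by rw [hh]; linarith
  have a2 : g * (d0+E0) ≤ G * E0 := by rw [hg]; rw [hg] at h3; linarith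
  have a3 : (h * (s1+P1)) * (g * (d0+E0)) ≤ (H * P1) * (G * E0) :=
    mul_le_mul a1 a2 (by positivity) (by positivity)
  have b1 : P1 * (g * d0) ≤ P1 * E0 := mul_le_mul_of_nonneg_left h3 n4
  have b2' : h * s1 ≤ P1 := by rw [hh]; linarith
  have b2 : (h * s1) * E0 ≤ P1 * E0 := mul_le_mul_of_nonneg_right b2' n7
  set W := (s0+P0) * (d1+E1) - (s1+P1) * (d0+E0) with hW
  have c1 : (P0 * E1 - P1 * E0) - P1 * d0 - s1 * E0 ≤ W := by
    have := mul_nonneg n1 n8
    have := mul_nonneg n3 n6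
    rw [hW]; linarith
  have c2 : (g * h - T * (g + h)) * (P1 * E0) ≤ T * g * h * W := by
    have m0 := mul_le_mul_of_nonneg_left c1 (by positivity : 0 ≤ T * g * h)
    have m1 := mul_le_mul_of_nonneg_left h2 (by positivity : 0 ≤ g * h)
    have m2 := mul_le_mul_of_nonneg_left b1 (by positivity : 0 ≤ T * h)
    have m3 := mul_le_mul_of_nonneg_left b2 (by positivity : 0 ≤ T * g)
    linarith
  have c3 := mul_le_mul_of_nonneg_left c2 ht
  have c4 := mul_le_mul_of_nonneg_right h5 X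
  have c5 := mul_le_mul_of_nonneg_left a3 hT.le
  have : (T * g * h) * ((s1+P1) * (d0+E0)) ≤ (T * g * h) * (tt * W) := by linarith
  exact le_of_mul_le_mul_left this (by positivity)

lemma fin4 (s0 s1 P0 P1 d0 d1 E0 E1 : ℝ) (n3 : 0 ≤ P0)
    (n4 : 0 ≤ P1) (n5 : 0 ≤ d0) (n6 : 0 ≤ d1) (n7 : 0 ≤ E0)
    (h0 : s1 * E0 ≤ s0 * E1)
    (h1 : 0 ≤ s0 * d1 - s1 * d0) (h2 : P1 * E0 ≤ 5 * (P0 * E1 - P1 * E0))
    (h3 : 7 * d0 ≤ E0) (h4 : 16 * s1 ≤ s1 + P1) :
    (s1+P1) * (d0+E0) ≤ 22 * ((s0+P0) * (d1+E1) - (s1+P1) * (d0+E0)) := by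
  have X : 0 ≤ P1 * E0 := mul_nonneg n4 n7
  have a1 : 15 * (s1+P1) ≤ 16 * P1 := by linarith
  have a2 : 7 * (d0+E0) ≤ 8 * E0 := by linarith
  have a3 : (15 * (s1+P1)) * (7 * (d0+E0)) ≤ (16 * P1) * (8 * E0) :=
    mul_le_mul a1 a2 (by positivity) (by positivity)
  have b1 : P1 * (7 * d0) ≤ P1 * E0 := mul_le_mul_of_nonneg_left h3 n4
  have := mul_nonneg n3 n6
  linarith

lemma W_of {n k : ℕ} (hk : 1 ≤ k)
    (h : c n (k+1) * D n k ≤ t k * (c n k * D n (k+1) - c n (k+1) * D n k)) :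
    0 ≤ c n k * D n (k+1) - c n (k+1) * D n k := by
  have h0 : 0 ≤ c n (k+1) * D n k := mul_nonneg (c_nonneg _ _) (D_nonneg _ _)
  exact nonneg_of_mul_nonneg_right (h0.trans h) (t_pos k hk) 

lemma mainT (n : ℕ) : ∀ k, 1 ≤ k →
    c n (k+1) * D n k ≤ t k * (c n k * D n (k+1) - c n (k+1) * D n k) := by
  induction n using Nat.strong_induction_on with
  | _ n ih =>
    intro k hk
    have hn : (0:ℝ) ≤ n := by positivity
    rcases Nat.lt_or_ge k 4 with h4 | h4
    · interval_cases k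
      · simp only [t, tN, Nat.reduceAdd, c_one, c_two, D_one, D_two]; norm_num; nlinarith
      · simp only [t, tN, Nat.reduceAdd, c_three, c_two, D_three, D_two]; norm_num
        have : 0 ≤ (n:ℝ) * n * (n-1) := by
          rcases Nat.eq_zero_or_pos n with rfl | h
          · simp
          · have : (1:ℝ) ≤ n := by exact_mod_cast h
            have : (0:ℝ) ≤ n - 1 := by linarith
            positivity
        nlinarith
      · simp only [t, tN, Nat.reduceAdd, c_three, D_three]; norm_num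
        have h2 := c_nonneg n 2
        rw [c_two] at h2
        have m := mul_le_mul_of_nonneg_left (T3 n) h2
        nlinarith
    rcases Nat.eq_zero_or_pos n with rfl | h
    · simp [c0]
    have i := ih (n/2) (by omega)
    have hy : (∀ j, c ((n+1)/2) j = c (n/2) j) ∨ (∀ j, c ((n+1)/2) j = c (n/2) j + D (n/2) j) := by
      rcases Nat.even_or_odd' n with ⟨p, rfl | rfl⟩
      · left; intro j; congr 1; omega
      · right; intro j; rw [← c_succ]; congr 1; omega
    have rc := c_rec n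
    have rd := D_rec n
    have gC := growC n k
    have gD := (growD (n/2) k hk).trans
      (B_mono (D_nonneg _) (c_nonneg _) (fun _ => le_rfl) (c_mono (by omega : n/2 ≤ (n+1)/2)) k)
    have q1 := Q4 (n/2)
    have q2 := Q4 ((n+1)/2)
    have r3 : D (n/2) 3 = D (n/2) 2 * (((n/2 : ℕ):ℝ) - 1) / 2 := by rw [D_three, D_two]
    have r4 : c ((n+1)/2) 3 = c ((n+1)/2) 2 * ((((n+1)/2 : ℕ):ℝ) - 2) / 3 := by
      rw [c_three, c_two]; ring
    have pq1 : ((n/2 : ℕ):ℝ) ≤ (((n+1)/2 : ℕ):ℝ) := by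
      exact_mod_cast (by omega : n/2 ≤ (n+1)/2)
    have pq2 : (((n+1)/2 : ℕ):ℝ) ≤ ((n/2 : ℕ):ℝ) + 1 := by
      exact_mod_cast (by omega : (n+1)/2 ≤ n/2 + 1)
    have d2 : D (n/2) 2 = ((n/2 : ℕ):ℝ) := D_two _
    set d := D (n/2) with hd
    set y := c ((n+1)/2) with hyd
    set o := c (n/2) with ho
    have nd : ∀ k, 0 ≤ d k := D_nonneg _
    have ny : ∀ k, 0 ≤ y k := c_nonneg _
    have no : ∀ k, 0 ≤ o k := c_nonneg _
    have iW : ∀ k, 1 ≤ k → 0 ≤ o k * d (k+1) - o (k+1) * d k := fun k hk => W_of hk (i k hk)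
    have h1 : 0 ≤ (y k + o k) * d (k+1) - (y (k+1) + o (k+1)) * d k := by
      have := iW k hk
      rcases hy with hy | hy
      · rw [hy, hy]; linarith
      · rw [hy, hy]; linarith
    have h2 : B y o (k+1) * B d y k ≤
        (2 * t (k/2) + 1) * (B y o k * B d y (k+1) - B y o (k+1) * B d y k) := by
      obtain ⟨a, rfl | rfl⟩ := Nat.even_or_odd' k
      · have e : 2*a/2 = a := by omega
        rw [e]
        simp only [B_even, B_odd]
        refine quartE _ _ _ _ _ _ _ (no a) (nd a) (iW a (by omega)) (i a (by omega)) ?_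
        rcases hy with hy | hy
        · left; exact ⟨hy _, hy _⟩
        · right; exact ⟨hy _, hy _⟩
      · have e : (2*a+1)/2 = a := by omega
        have e2 : 2*a+1+1 = 2*(a+1) := by ring
        rw [e, e2]
        simp only [B_even, B_odd]
        refine quartO _ _ _ _ _ _ _ (no (a+1)) (nd (a+1)) (iW a (by omega)) (i a (by omega)) ?_
        rcases hy with hy | hy
        · left; exact ⟨hy _, hy _⟩
        · right; exact ⟨hy _, hy _⟩
    rw [rc (k+1)] at gC
    rw [rc k, rc (k+1), rd k, rd (k+1)]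
    rcases Nat.lt_or_ge k 5 with h5 | h5
    · obtain rfl : k = 4 := by omega
      have t4 : t 4 = 22 := by simp [t, tN]
      have t2 : t (4/2) = 2 := by simp [t, tN]
      rw [t2] at h2
      rw [t4]
      refine fin4 _ _ _ _ _ _ _ _ (B_nonneg ny no _) (B_nonneg ny no _) (nd _) (nd _)
        (B_nonneg nd ny _) ?_ h1 (by linarith) (by norm_num at gD; linarith) (by norm_num at gC ⊢; linarith)
      have e := B_even d y 2
      have e' := B_odd d y 2
      simp only [Nat.reduceMul, Nat.reduceAdd] at e e' ⊢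
      rw [e, e', r3, r4]
      set p : ℝ := ((n/2 : ℕ):ℝ)
      set q : ℝ := (((n+1)/2 : ℕ):ℝ)
      have z : 0 ≤ d 2 * y 2 := mul_nonneg (nd 2) (ny 2)
      have s5 : 3 * (y 5 + o 5) ≤ (q - 2) * (y 4 + o 4) := by
        have := mul_le_mul_of_nonneg_right pq1 (no 4)
        linarith
      have m := mul_le_mul_of_nonneg_right s5 z
      have z2 : 0 ≤ d 2 * (p - 1) := by
        have := nd 3
        rw [r3] at this; linarith
      have z3 := mul_nonneg (mul_nonneg z2 (ny 2)) (add_nonneg (ny 4) (no 4))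
      linarith
    · refine fin5 _ _ _ _ _ _ _ _ (2 * t (k/2) + 1) (2^(3*k/4)) (2^k) _
        (add_nonneg (ny _) (no _)) (add_nonneg (ny _) (no _)) (B_nonneg ny no _) (B_nonneg ny no _)
        (nd _) (nd _) (B_nonneg nd ny _) (B_nonneg nd ny _) ?_ ?_ ?_ (t_nonneg _) h1 h2 gD gC (num k h5)
      · have := t_nonneg (k/2); linarith
      · exact one_lt_pow₀ (by norm_num) (by omega)
      · exact one_lt_pow₀ (by norm_num) (by omega)

lemma tp_adj (n k : ℕ) : c n (k+1) * c (n+1) k ≤ c n k * c (n+1) (k+1) := by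
  rcases Nat.eq_zero_or_pos k with rfl | hk
  · simp [c_zero]
  · have := W_of hk (mainT n k hk)
    rw [c_succ, c_succ]; linarith

lemma tp_row {n m : ℕ} (h : n ≤ m) (k : ℕ) : c n (k+1) * c m k ≤ c n k * c m (k+1) := by
  rcases Nat.eq_zero_or_pos k with rfl | hk
  · simp [c_zero]
  by_cases h0 : c n k = 0
  · rw [supp n k hk h0, h0]; simp
  have hp : 0 < c n k := lt_of_le_of_ne (c_nonneg _ _) (Ne.symm h0)
  induction m, h using Nat.le_induction with
  | base => exact le_of_eq (mul_comm _ _)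
  | succ m hm ih =>
    have hp2 : 0 < c m k := lt_of_lt_of_le hp (c_mono hm k)
    have a := tp_adj m k
    have m1 := mul_le_mul_of_nonneg_right ih (c_nonneg (m+1) k)
    have m2 := mul_le_mul_of_nonneg_left a hp.le
    have : c m k * (c n (k+1) * c (m+1) k) ≤ c m k * (c n k * c (m+1) (k+1)) := by linarith
    exact le_of_mul_le_mul_left this hp2

lemma tp2 {n m : ℕ} (h : n ≤ m) {i j : ℕ} (hij : i ≤ j) : c n j * c m i ≤ c n i * c m j := by
  rcases Nat.eq_zero_or_pos i with rfl | hi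
  · simp [c_zero]
  induction j, hij using Nat.le_induction with
  | base => exact le_rfl
  | succ j hj ih =>
    by_cases h0 : c n j = 0
    · rw [supp n j (by omega) h0, zero_mul]; exact mul_nonneg (c_nonneg _ _) (c_nonneg _ _)
    have hp : 0 < c n j := lt_of_le_of_ne (c_nonneg _ _) (Ne.symm h0)
    have hp2 : 0 < c m j := lt_of_lt_of_le hp (c_mono h j)
    have a := tp_row h j
    have m1 := mul_le_mul_of_nonneg_right a (c_nonneg m i)
    have m2 := mul_le_mul_of_nonneg_right ih (c_nonneg m (j+1))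
    have : c m j * (c n (j+1) * c m i) ≤ c m j * (c n i * c m (j+1)) := by linarith
    exact le_of_mul_le_mul_left this hp2

/-- cubic comparison -/
lemma cubic (x y z w : ℕ → ℝ) (o j : ℕ) (hj : j ≤ o + 1) (ho : 1 ≤ o)
    (h1 : ∀ i, y i ≤ w i) (h2 : ∀ i, x i ≤ z i)
    (h3 : ∀ i, i ≤ o → x o * z i ≤ x i * z o) (h4 : ∀ i, i ≤ o → y o * w i ≤ y i * w o) :
    (x o + y o) * B z w j + B x y j * (z o + w o) ≤ (x o + w o) * B y z j + B x w j * (y o + z o) := by
  obtain ⟨a, rfl | rfl⟩ := Nat.even_or_odd' j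
  · simp only [B_even]
    have m1 := mul_nonneg (sub_nonneg.2 (h1 a)) (sub_nonneg.2 (h3 a (by omega)))
    have m2 := mul_nonneg (sub_nonneg.2 (h2 a)) (sub_nonneg.2 (h4 a (by omega)))
    linarith
  · simp only [B_odd]
    have m1 := mul_nonneg (sub_nonneg.2 (h1 a)) (sub_nonneg.2 (h3 (a+1) (by omega)))
    have m2 := mul_nonneg (sub_nonneg.2 (h2 a)) (sub_nonneg.2 (h4 (a+1) (by omega)))
    have m3 := mul_nonneg (sub_nonneg.2 (h1 (a+1))) (sub_nonneg.2 (h3 a (by omega)))
    have m4 := mul_nonneg (sub_nonneg.2 (h2 (a+1))) (sub_nonneg.2 (h4 a (by omega)))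
    linarith

lemma medial {m1 m2 n1 n2 : ℕ} (h1 : m2 ≤ n2) (h2 : m1 ≤ n1) (k : ℕ) :
    op (op (c m1) (c m2)) (op (c n1) (c n2)) k ≤ op (op (c m1) (c n2)) (op (c m2) (c n1)) k := by
  set x := c m1 with hx
  set y := c m2 with hy
  set z := c n1 with hz
  set w := c n2 with hw
  have x0 : x 0 = 0 := c_zero _
  have y0 : y 0 = 0 := c_zero _
  have z0 : z 0 = 0 := c_zero _
  have w0 : w 0 = 0 := c_zero _
  have cub : ∀ o j, j ≤ o + 1 → 1 ≤ o →
      (x o + y o) * B z w j + B x y j * (z o + w o) ≤ (x o + w o) * B y z j + B x w j * (y o + z o) :=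
    fun o j hj ho => cubic x y z w o j hj ho (c_mono h1) (c_mono h2) (fun i hi => tp2 h2 hi)
      (fun i hi => tp2 h1 hi)
  obtain ⟨a, rfl | rfl⟩ := Nat.even_or_odd' k
  · rcases Nat.eq_zero_or_pos a with rfl | ha
    · have e : ∀ u v : ℕ → ℝ, B u v 0 = u 0 * v 0 := fun u v => B_even u v 0
      simp [op, e, x0, y0, z0, w0]
    have c1 := cub a a (by omega) ha
    have q : B x y a * B z w a ≤ B x w a * B y z a := by
      obtain ⟨r, rfl | rfl⟩ := Nat.even_or_odd' a
      · simp only [B_even]; apply le_of_eq; ring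
      · simp only [B_odd]
        have e1 : x (r+1) * z r ≤ x r * z (r+1) := tp2 h2 (Nat.le_succ r)
        have e2 : y (r+1) * w r ≤ y r * w (r+1) := tp2 h1 (Nat.le_succ r)
        have m := mul_nonneg (sub_nonneg.2 e1) (sub_nonneg.2 e2)
        linarith
    simp only [op, B_even]
    linarith
  · rcases Nat.eq_zero_or_pos a with rfl | ha
    · have e : ∀ u v : ℕ → ℝ, B u v 0 = u 0 * v 0 := fun u v => B_even u v 0
      have e1 : ∀ u v : ℕ → ℝ, B u v 1 = u 1 * v 0 + u 0 * v 1 := fun u v => B_odd u v 0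
      simp only [op, mul_zero, zero_add, e, e1, x0, y0, z0, w0]
      apply le_of_eq; ring
    have c1 := cub a (a+1) (by omega) ha
    have c2 := cub (a+1) a (by omega) (by omega)
    have q : B x y (a+1) * B z w a + B x y a * B z w (a+1)
        = B x w (a+1) * B y z a + B x w a * B y z (a+1) := by
      obtain ⟨r, rfl | rfl⟩ := Nat.even_or_odd' a
      · simp only [B_even, B_odd]; ring
      · have e2 : 2*r+1+1 = 2*(r+1) := by ring
        rw [e2]
        simp only [B_even, B_odd]; ring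
    simp only [op, B_odd]
    linarith

lemma op_nonneg {u v : ℕ → ℝ} (hu : ∀ k, 0 ≤ u k) (hv : ∀ k, 0 ≤ v k) (k : ℕ) : 0 ≤ op u v k :=
  add_nonneg (add_nonneg (hu k) (hv k)) (B_nonneg hu hv k)

lemma op_mono {u v u' v' : ℕ → ℝ} (hu : ∀ k, 0 ≤ u k) (hv : ∀ k, 0 ≤ v k)
    (h1 : ∀ k, u k ≤ u' k) (h2 : ∀ k, v k ≤ v' k) (k : ℕ) : op u v k ≤ op u' v' k :=
  add_le_add (add_le_add (h1 k) (h2 k)) (B_mono hu hv h1 h2 k)

lemma op_bal {m n : ℕ} (h1 : m ≤ n + 1) (h2 : n ≤ m + 1) : op (c m) (c n) = c (m+n) := by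
  rcases Nat.le_total m n with h | h
  · rw [op_comm]
    funext k
    rw [c_rec (m+n) k]
    have e1 : (m+n+1)/2 = n := by omega
    have e2 : (m+n)/2 = m := by omega
    rw [e1, e2]; rfl
  · funext k
    rw [c_rec (m+n) k]
    have e1 : (m+n+1)/2 = m := by omega
    have e2 : (m+n)/2 = n := by omega
    rw [e1, e2]; rfl

lemma op_le (N : ℕ) : ∀ m n, m + n = N → ∀ k, op (c m) (c n) k ≤ c N k := by
  induction N using Nat.strong_induction_on with
  | _ N ih =>
    have aux : ∀ m n, m ≤ n → m + n = N → ∀ k, op (c m) (c n) k ≤ c N k := by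
      intro m n hmn hN k
      rcases Nat.lt_or_ge n (m+2) with h | h
      · rw [op_bal (by omega) (by omega), hN]
      · have e1 : c m = op (c ((m+1)/2)) (c (m/2)) := by funext k; exact c_rec m k
        have e2 : c n = op (c ((n+1)/2)) (c (n/2)) := by funext k; exact c_rec n k
        rw [e1, e2]
        refine (medial (by omega) (by omega) k).trans ?_
        have i1 := ih ((m+1)/2 + n/2) (by omega) _ _ rfl
        have i2 := ih (m/2 + (n+1)/2) (by omega) _ _ rfl
        refine (op_mono (op_nonneg (c_nonneg _) (c_nonneg _)) (op_nonneg (c_nonneg _) (c_nonneg _))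
          i1 i2 k).trans ?_
        rw [op_bal (by omega) (by omega)]
        apply le_of_eq; congr 1; omega
    intro m n hN k
    rcases Nat.le_total m n with h | h
    · exact aux m n h hN k
    · rw [op_comm]; exact aux n m h (by omega) k

end

end Pool.Agent.H.MP_f2fe2b_co
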