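import Pool.Agent.H.MP_f2fe2b_co.C

set_option autoImplicit false

namespace Pool.Agent.H.MP_f2fe2b_co

open Finset

section
variable {α β : Type} [DecidableEq α] [DecidableEq β]

def Lam (T : Finset (Finset α)) : Prop :=
  (∀ A ∈ T, ∀ B ∈ T, A ⊆ B ∨ B ⊆ A ∨ Disjoint A B) ∧ ∃ U ∈ T, ∀ x, x ∈ U

def InTr (T : Finset (Finset α)) (L B : Finset α) : Prop :=
  B.Nonempty ∧ ∃ A ∈ T, B = A ∩ L

inductive Ev (T : Finset (Finset α)) : Finset α → Prop
  | leaf (x : α) : Ev T {x}
  | node (L1 L2 : Finset α) : Disjoint L1 L2 → Ev T L1 → Ev T L2 → L2.card ≤ L1.card →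
      L1.card ≤ L2.card + 1 → InTr T (L1 ∪ L2) L1 → InTr T (L1 ∪ L2) L2 → Ev T (L1 ∪ L2)

lemma InTr.sub {T : Finset (Finset α)} {L B : Finset α} (h : InTr T L B) : B ⊆ L := by
  obtain ⟨_, A, _, rfl⟩ := h
  exact inter_subset_right

lemma Ev.ne {T : Finset (Finset α)} {L : Finset α} (h : Ev T L) : L.Nonempty := by
  cases h with
  | leaf x => exact singleton_nonempty x
  | node L1 L2 _ _ _ _ _ h1 _ => exact h1.1.mono subset_union_left

lemma Ev.node' {T : Finset (Finset α)} {L1 L2 : Finset α} (hd : Disjoint L1 L2) (h1 : Ev T L1)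
    (h2 : Ev T L2) (c1 : L2.card ≤ L1.card + 1) (c2 : L1.card ≤ L2.card + 1)
    (t1 : InTr T (L1 ∪ L2) L1) (t2 : InTr T (L1 ∪ L2) L2) : Ev T (L1 ∪ L2) := by
  rcases Nat.le_total L2.card L1.card with h | h
  · exact Ev.node L1 L2 hd h1 h2 h c2 t1 t2
  · rw [union_comm] at t1 t2 ⊢
    exact Ev.node L2 L1 hd.symm h2 h1 h c1 t2 t1

lemma InTr.self {T : Finset (Finset α)} (hT : Lam T) {L : Finset α} (h : L.Nonempty) :
    InTr T L L := by
  obtain ⟨U, hU, hu⟩ := hT.2
  refine ⟨h, U, hU, ?_⟩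
  ext x; simp [hu x]

lemma InTr.up {T : Finset (Finset α)} (hT : Lam T) {L L1 B : Finset α} (t1 : InTr T L L1)
    (h : InTr T L1 B) : InTr T L B := by
  obtain ⟨_, B0, hB0, e⟩ := t1
  obtain ⟨hne, A, hA, rfl⟩ := h
  refine ⟨hne, ?_⟩
  rcases hT.1 A hA B0 hB0 with h | h | h
  · refine ⟨A, hA, ?_⟩
    rw [e]; ext x; simp only [mem_inter]
    exact ⟨fun h1 => ⟨h1.1, h1.2.2⟩, fun h1 => ⟨h1.1, h h1.1, h1.2⟩⟩
  · refine ⟨B0, hB0, ?_⟩
    rw [e]; ext x; simp only [mem_inter]
    exact ⟨fun h1 => h1.2, fun h1 => ⟨h h1.1, h1⟩⟩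
  · obtain ⟨x, hx⟩ := hne
    rw [e] at hx
    simp only [mem_inter] at hx
    exact absurd hx.2.1 (disjoint_left.1 h hx.1)

lemma InTr.down {T : Finset (Finset α)} {L L1 B : Finset α} (h : InTr T L B) (h1 : L1 ⊆ L)
    (h2 : B ⊆ L1) : InTr T L1 B := by
  obtain ⟨hne, A, hA, rfl⟩ := h
  refine ⟨hne, A, hA, ?_⟩
  ext x; simp only [mem_inter]
  exact ⟨fun h => ⟨h.1, h2 (mem_inter.2 h)⟩, fun h => ⟨h.1, h1 h.2⟩⟩

lemma InTr.split {T : Finset (Finset α)} (hT : Lam T) {L1 L2 B : Finset α}
    (t1 : InTr T (L1 ∪ L2) L1) (t2 : InTr T (L1 ∪ L2) L2) (hd : Disjoint L1 L2)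
    (h : InTr T (L1 ∪ L2) B) :
    B = L1 ∪ L2 ∨ B ⊆ L1 ∨ B ⊆ L2 := by
  obtain ⟨_, B0, hB0, e1⟩ := t1
  obtain ⟨_, D0, hD0, e2⟩ := t2
  obtain ⟨hne, A, hA, rfl⟩ := h
  have m1 : ∀ x, x ∈ L1 ↔ x ∈ B0 ∧ x ∈ L1 ∪ L2 := fun x => by
    conv_lhs => rw [e1]
    exact mem_inter
  have m2 : ∀ x, x ∈ L2 ↔ x ∈ D0 ∧ x ∈ L1 ∪ L2 := fun x => by
    conv_lhs => rw [e2]
    exact mem_inter
  rcases hT.1 A hA B0 hB0 with h | h | h
  · right; left; intro x hx
    rw [mem_inter] at hx
    exact (m1 x).2 ⟨h hx.1, hx.2⟩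
  · rcases hT.1 A hA D0 hD0 with h' | h' | h'
    · right; right; intro x hx
      rw [mem_inter] at hx
      exact (m2 x).2 ⟨h' hx.1, hx.2⟩
    · left
      apply inter_eq_right.2
      intro x hx
      rcases mem_union.1 hx with h1 | h1
      · exact h ((m1 x).1 h1).1
      · exact h' ((m2 x).1 h1).1
    · right; left; intro x hx
      rw [mem_inter] at hx
      rcases mem_union.1 hx.2 with h1 | h1
      · exact h1
      · exact absurd ((m2 x).1 h1).1 (disjoint_left.1 h' hx.1)
  · right; right; intro x hx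
    rw [mem_inter] at hx
    rcases mem_union.1 hx.2 with h1 | h1
    · exact absurd ((m1 x).1 h1).1 (disjoint_left.1 h hx.1)
    · exact h1

lemma InTr.iff {T : Finset (Finset α)} (hT : Lam T) {L1 L2 B : Finset α}
    (t1 : InTr T (L1 ∪ L2) L1) (t2 : InTr T (L1 ∪ L2) L2) (hd : Disjoint L1 L2) :
    InTr T (L1 ∪ L2) B ↔ B = L1 ∪ L2 ∨ InTr T L1 B ∨ InTr T L2 B := by
  constructor
  · intro h
    rcases InTr.split hT t1 t2 hd h with e | e | e
    · exact Or.inl e
    · exact Or.inr (Or.inl (h.down subset_union_left e))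
    · exact Or.inr (Or.inr (h.down subset_union_right e))
  · rintro (rfl | h | h)
    · exact InTr.self hT (t1.1.mono subset_union_left)
    · exact InTr.up hT t1 h
    · exact InTr.up hT t2 h

lemma transport {S : Finset (Finset β)} {T : Finset (Finset α)} (hS : Lam S) (f : β → α)
    (hf : Function.Injective f) {M : Finset β} (h : Ev S M) :
    (∀ B, InTr S M B → InTr T (M.image f) (B.image f)) → Ev T (M.image f) := by
  induction h with
  | leaf x => intro _; rw [image_singleton]; exact Ev.leaf _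
  | node M1 M2 hd _ _ c1 c2 t1 t2 ih1 ih2 =>
    intro h
    have a1 := h _ t1
    have a2 := h _ t2
    rw [image_union] at a1 a2 ⊢
    refine Ev.node _ _ ((disjoint_image hf).2 hd) (ih1 ?_) (ih2 ?_) ?_ ?_ a1 a2
    · intro B hB
      exact (h B (InTr.up hS t1 hB)).down (image_subset_image subset_union_left)
        (image_subset_image hB.sub)
    · intro B hB
      exact (h B (InTr.up hS t2 hB)).down (image_subset_image subset_union_right)
        (image_subset_image hB.sub)
    · rw [card_image_of_injective _ hf, card_image_of_injective _ hf]; exact c1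
    · rw [card_image_of_injective _ hf, card_image_of_injective _ hf]; exact c2

lemma InTr.single {T : Finset (Finset α)} (hT : Lam T) {x : α} {B : Finset α} :
    InTr T {x} B ↔ B = {x} := by
  constructor
  · intro h
    rcases subset_singleton_iff.1 h.sub with e | e
    · exact absurd e h.1.ne_empty
    · exact e
  · rintro rfl
    exact InTr.self hT (singleton_nonempty x)

lemma iso {S : Finset (Finset β)} {T : Finset (Finset α)} (hS : Lam S) (hT : Lam T)
    {M : Finset β} (h : Ev S M) : ∀ L, Ev T L → M.card = L.card →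
    ∃ f : β → α, Set.InjOn f M ∧ M.image f = L ∧
      ∀ B, B ⊆ M → (InTr S M B ↔ InTr T L (B.image f)) := by
  induction h with
  | leaf x =>
    intro L hL hc
    obtain ⟨y, rfl⟩ := card_eq_one.1 (hc.symm.trans (card_singleton x))
    refine ⟨fun _ => y, ?_, by simp, ?_⟩
    · intro a ha b hb _
      simp only [coe_singleton, Set.mem_singleton_iff] at ha hb
      rw [ha, hb]
    · intro B hB
      rw [InTr.single hS, InTr.single hT]
      rcases subset_singleton_iff.1 hB with e | e
      · subst e; simp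
      · subst e; simp
  | node M1 M2 hd e1 e2 c1 c2 t1 t2 ih1 ih2 =>
    intro L hL hc
    have p1 := e1.ne.card_pos
    have p2 := e2.ne.card_pos
    rw [card_union_of_disjoint hd] at hc
    cases hL with
    | leaf y => rw [card_singleton] at hc; omega
    | node L1 L2 hd' e1' e2' c1' c2' t1' t2' =>
      rw [card_union_of_disjoint hd'] at hc
      obtain ⟨f1, i1, im1, tr1⟩ := ih1 L1 e1' (by omega)
      obtain ⟨f2, i2, im2, tr2⟩ := ih2 L2 e2' (by omega)
      let f : β → α := fun x => if x ∈ M1 then f1 x else f2 x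
      have g1 : ∀ x ∈ M1, f x = f1 x := fun x hx => if_pos hx
      have g2 : ∀ x ∈ M2, f x = f2 x := fun x hx => if_neg (disjoint_right.1 hd hx)
      have k1 : ∀ B, B ⊆ M1 → B.image f = B.image f1 := fun B hB =>
        image_congr (fun x hx => g1 x (hB hx))
      have k2 : ∀ B, B ⊆ M2 → B.image f = B.image f2 := fun B hB =>
        image_congr (fun x hx => g2 x (hB hx))
      have l1 : ∀ x ∈ M1, f x ∈ L1 := fun x hx => by
        rw [g1 x hx, ← im1]; exact mem_image_of_mem _ hx
      have l2 : ∀ x ∈ M2, f x ∈ L2 := fun x hx => by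
        rw [g2 x hx, ← im2]; exact mem_image_of_mem _ hx
      have inj : Set.InjOn f ↑(M1 ∪ M2) := by
        intro a ha b hb hab
        rcases mem_union.1 (mem_coe.1 ha) with ha | ha <;>
          rcases mem_union.1 (mem_coe.1 hb) with hb | hb
        · rw [g1 a ha, g1 b hb] at hab; exact i1 ha hb hab
        · exact absurd (hab ▸ l1 a ha) (disjoint_right.1 hd' (l2 b hb))
        · exact absurd (hab ▸ l2 a ha) (disjoint_left.1 hd' (l1 b hb))
        · rw [g2 a ha, g2 b hb] at hab; exact i2 ha hb hab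
      have im : (M1 ∪ M2).image f = L1 ∪ L2 := by
        rw [image_union, k1 _ subset_rfl, k2 _ subset_rfl, im1, im2]
      refine ⟨f, inj, im, ?_⟩
      intro B hB
      rw [InTr.iff hS t1 t2 hd, InTr.iff hT t1' t2' hd']
      refine or_congr ?_ (or_congr ?_ ?_)
      · constructor
        · rintro rfl; exact im
        · intro e
          apply eq_of_subset_of_card_le hB
          rw [← card_image_of_injOn inj, im, ← e]
          exact card_image_le
      · constructor
        · intro h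
          rw [k1 B h.sub]; exact (tr1 B h.sub).1 h
        · intro h
          have hs : B ⊆ M1 := by
            intro x hx
            rcases mem_union.1 (hB hx) with h1 | h1
            · exact h1
            · exact absurd (h.sub (mem_image_of_mem f hx)) (disjoint_right.1 hd' (l2 x h1))
          rw [k1 B hs] at h; exact (tr1 B hs).2 h
      · constructor
        · intro h
          rw [k2 B h.sub]; exact (tr2 B h.sub).1 h
        · intro h
          have hs : B ⊆ M2 := by
            intro x hx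
            rcases mem_union.1 (hB hx) with h1 | h1
            · exact absurd (h.sub (mem_image_of_mem f hx)) (disjoint_left.1 hd' (l1 x h1))
            · exact h1
          rw [k2 B hs] at h; exact (tr2 B hs).2 h

lemma ev_mixed {T : Finset (Finset α)} (hT : Lam T) {B D L : Finset α} (hB : B ∈ T) (hD : D ∈ T)
    (hd : Disjoint B D) (hL : L ⊆ B ∪ D) (n1 : (B ∩ L).Nonempty) (n2 : (D ∩ L).Nonempty) :
    Ev T L ↔ Ev T (B ∩ L) ∧ Ev T (D ∩ L) ∧ (D ∩ L).card ≤ (B ∩ L).card + 1 ∧
      (B ∩ L).card ≤ (D ∩ L).card + 1 := by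
  have eL : B ∩ L ∪ D ∩ L = L := by
    rw [← union_inter_distrib_right]; exact inter_eq_right.2 hL
  have hd2 : Disjoint (B ∩ L) (D ∩ L) := hd.mono inter_subset_left inter_subset_left
  constructor
  · intro h
    obtain ⟨x, hx⟩ := n1
    obtain ⟨y, hy⟩ := n2
    have hxy : x ≠ y := by
      rintro rfl
      exact disjoint_left.1 hd2 hx hy
    cases h with
    | leaf z =>
      have := mem_singleton.1 (mem_inter.1 hx).2
      have := mem_singleton.1 (mem_inter.1 hy).2
      exact absurd (by simp [*]) hxy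
    | node L1 L2 hd' e1 e2 c1 c2 t1 t2 =>
      have s1 := InTr.split hT t1 t2 hd' (⟨⟨x, hx⟩, B, hB, rfl⟩ : InTr T (L1 ∪ L2) (B ∩ (L1 ∪ L2)))
      have s2 := InTr.split hT t1 t2 hd' (⟨⟨y, hy⟩, D, hD, rfl⟩ : InTr T (L1 ∪ L2) (D ∩ (L1 ∪ L2)))
      obtain ⟨u, hu⟩ := e1.ne
      obtain ⟨v, hv⟩ := e2.ne
      set P := B ∩ (L1 ∪ L2) with hP
      set Q := D ∩ (L1 ∪ L2) with hQ
      have cov : ∀ w, w ∈ L1 ∪ L2 → w ∈ P ∨ w ∈ Q := fun w hw => mem_union.1 (eL.symm ▸ hw)
      have sP : P ⊆ L1 ∪ L2 := inter_subset_right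
      have sQ : Q ⊆ L1 ∪ L2 := inter_subset_right
      rcases s1 with s1 | s1 | s1
      · exact absurd hy (disjoint_left.1 hd2 (s1.symm ▸ sQ hy))
      · rcases s2 with s2 | s2 | s2
        · exact absurd hx (disjoint_right.1 hd2 (s2.symm ▸ sP hx))
        · rcases cov v (mem_union_right _ hv) with h | h
          · exact absurd hv (disjoint_left.1 hd' (s1 h))
          · exact absurd hv (disjoint_left.1 hd' (s2 h))
        · have a1 : P = L1 := Subset.antisymm s1 (fun w hw => by
            rcases cov w (mem_union_left _ hw) with h | h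
            · exact h
            · exact absurd (s2 h) (disjoint_left.1 hd' hw))
          have a2 : Q = L2 := Subset.antisymm s2 (fun w hw => by
            rcases cov w (mem_union_right _ hw) with h | h
            · exact absurd (s1 h) (disjoint_right.1 hd' hw)
            · exact h)
          rw [a1, a2]
          exact ⟨e1, e2, by omega, c2⟩
      · rcases s2 with s2 | s2 | s2
        · exact absurd hx (disjoint_right.1 hd2 (s2.symm ▸ sP hx))
        · have a1 : P = L2 := Subset.antisymm s1 (fun w hw => by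
            rcases cov w (mem_union_right _ hw) with h | h
            · exact h
            · exact absurd (s2 h) (disjoint_right.1 hd' hw))
          have a2 : Q = L1 := Subset.antisymm s2 (fun w hw => by
            rcases cov w (mem_union_left _ hw) with h | h
            · exact absurd (s1 h) (disjoint_left.1 hd' hw)
            · exact h)
          rw [a1, a2]
          exact ⟨e2, e1, c2, by omega⟩
        · rcases cov u (mem_union_left _ hu) with h | h
          · exact absurd hu (disjoint_right.1 hd' (s1 h))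
          · exact absurd hu (disjoint_right.1 hd' (s2 h))
  · rintro ⟨e1, e2, c1, c2⟩
    have := Ev.node' hd2 e1 e2 c1 c2 ⟨n1, B, hB, by rw [eL]⟩ ⟨n2, D, hD, by rw [eL]⟩
    rwa [eL] at this

open Classical in
noncomputable def S (T : Finset (Finset α)) (A : Finset α) (k : ℕ) : Finset (Finset α) :=
  A.powerset.filter (fun L => Ev T L ∧ L.card = k)

lemma mem_S {T : Finset (Finset α)} {A L : Finset α} {k : ℕ} :
    L ∈ S T A k ↔ L ⊆ A ∧ Ev T L ∧ L.card = k := by
  simp [S]

noncomputable def P (T : Finset (Finset α)) (B D : Finset α) (i j : ℕ) : Finset (Finset α) :=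
  (S T B i ×ˢ S T D j).image (fun p => p.1 ∪ p.2)

lemma inter_l {B D L1 L2 : Finset α} (hd : Disjoint B D) (h1 : L1 ⊆ B) (h2 : L2 ⊆ D) :
    B ∩ (L1 ∪ L2) = L1 := by
  ext x; simp only [mem_inter, mem_union]
  constructor
  · rintro ⟨h, h' | h'⟩
    · exact h'
    · exact absurd (h2 h') (disjoint_left.1 hd h)
  · intro h; exact ⟨h1 h, Or.inl h⟩

lemma inter_r {B D L1 L2 : Finset α} (hd : Disjoint B D) (h1 : L1 ⊆ B) (h2 : L2 ⊆ D) :
    D ∩ (L1 ∪ L2) = L2 := by
  rw [union_comm]; exact inter_l hd.symm h2 h1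

lemma card_P (T : Finset (Finset α)) {B D : Finset α} (hd : Disjoint B D) (i j : ℕ) :
    (P T B D i j).card = (S T B i).card * (S T D j).card := by
  rw [P, card_image_of_injOn, card_product]
  rintro ⟨a, b⟩ h ⟨a', b'⟩ h' e
  simp only [coe_product, Set.mem_prod, mem_coe, mem_S] at h h' e
  have e1 := inter_l hd h.1.1 h.2.1
  have e2 := inter_r hd h.1.1 h.2.1
  rw [e, inter_l hd h'.1.1 h'.2.1] at e1
  rw [e, inter_r hd h'.1.1 h'.2.1] at e2
  rw [e1, e2]

lemma mem_P {T : Finset (Finset α)} {B D L : Finset α} (hd : Disjoint B D) {i j : ℕ} :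
    L ∈ P T B D i j ↔ L ⊆ B ∪ D ∧ Ev T (B ∩ L) ∧ Ev T (D ∩ L) ∧ (B ∩ L).card = i ∧
      (D ∩ L).card = j := by
  simp only [P, mem_image, mem_product, mem_S, Prod.exists]
  constructor
  · rintro ⟨a, b, ⟨h1, h2⟩, rfl⟩
    rw [inter_l hd h1.1 h2.1, inter_r hd h1.1 h2.1]
    exact ⟨union_subset_union h1.1 h2.1, h1.2.1, h2.2.1, h1.2.2, h2.2.2⟩
  · rintro ⟨h, e1, e2, c1, c2⟩
    refine ⟨B ∩ L, D ∩ L, ⟨⟨inter_subset_left, e1, c1⟩, ⟨inter_subset_left, e2, c2⟩⟩, ?_⟩
    rw [← union_inter_distrib_right]; exact inter_eq_right.2 h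

lemma mem_S_union {T : Finset (Finset α)} (hT : Lam T) {B D L : Finset α} (hB : B ∈ T)
    (hD : D ∈ T) (hd : Disjoint B D) (k : ℕ) :
    L ∈ S T (B ∪ D) k ↔ L ∈ S T B k ∨ L ∈ S T D k ∨
      ∃ i j, i + j = k ∧ i ≤ j + 1 ∧ j ≤ i + 1 ∧ L ∈ P T B D i j := by
  constructor
  · intro h
    obtain ⟨h1, h2, h3⟩ := mem_S.1 h
    have eL : B ∩ L ∪ D ∩ L = L := by
      rw [← union_inter_distrib_right]; exact inter_eq_right.2 h1
    rcases (D ∩ L).eq_empty_or_nonempty with n2 | n2
    · left
      rw [n2, union_empty] at eL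
      exact mem_S.2 ⟨eL ▸ inter_subset_left, h2, h3⟩
    rcases (B ∩ L).eq_empty_or_nonempty with n1 | n1
    · right; left
      rw [n1, empty_union] at eL
      exact mem_S.2 ⟨eL ▸ inter_subset_left, h2, h3⟩
    right; right
    obtain ⟨e1, e2, c1, c2⟩ := (ev_mixed hT hB hD hd h1 n1 n2).1 h2
    refine ⟨_, _, ?_, c2, c1, (mem_P hd).2 ⟨h1, e1, e2, rfl, rfl⟩⟩
    rw [← card_union_of_disjoint (hd.mono inter_subset_left inter_subset_left), eL, h3]
  · rintro (h | h | ⟨i, j, hk, c1, c2, h⟩)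
    · obtain ⟨h1, h2, h3⟩ := mem_S.1 h
      exact mem_S.2 ⟨h1.trans subset_union_left, h2, h3⟩
    · obtain ⟨h1, h2, h3⟩ := mem_S.1 h
      exact mem_S.2 ⟨h1.trans subset_union_right, h2, h3⟩
    · obtain ⟨h1, e1, e2, rfl, rfl⟩ := (mem_P hd).1 h
      have eL : B ∩ L ∪ D ∩ L = L := by
        rw [← union_inter_distrib_right]; exact inter_eq_right.2 h1
      refine mem_S.2 ⟨h1, (ev_mixed hT hB hD hd h1 e1.ne e2.ne).2 ⟨e1, e2, c2, c1⟩, ?_⟩
      rw [← hk, ← card_union_of_disjoint (hd.mono inter_subset_left inter_subset_left), eL]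

lemma dis1 (T : Finset (Finset α)) {B D : Finset α} (hd : Disjoint B D) (k : ℕ) :
    Disjoint (S T B k) (S T D k) := by
  rw [disjoint_left]
  intro L h1 h2
  obtain ⟨x, hx⟩ := (mem_S.1 h1).2.1.ne
  exact disjoint_left.1 hd ((mem_S.1 h1).1 hx) ((mem_S.1 h2).1 hx)

lemma dis2 (T : Finset (Finset α)) {B D : Finset α} (hd : Disjoint B D) (k i j : ℕ) :
    Disjoint (S T B k ∪ S T D k) (P T B D i j) := by
  rw [disjoint_left]
  intro L h1 h2
  obtain ⟨_, e1, e2, _, _⟩ := (mem_P hd).1 h2
  rcases mem_union.1 h1 with h | h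
  · obtain ⟨x, hx⟩ := e2.ne
    rw [mem_inter] at hx
    exact disjoint_left.1 hd ((mem_S.1 h).1 hx.2) hx.1
  · obtain ⟨x, hx⟩ := e1.ne
    rw [mem_inter] at hx
    exact disjoint_left.1 hd hx.1 ((mem_S.1 h).1 hx.2)

noncomputable def N (T : Finset (Finset α)) (A : Finset α) (k : ℕ) : ℝ := (S T A k).card

lemma N_nonneg (T : Finset (Finset α)) (A : Finset α) (k : ℕ) : 0 ≤ N T A k := by
  unfold N; positivity

lemma N_union {T : Finset (Finset α)} (hT : Lam T) {B D : Finset α} (hB : B ∈ T)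
    (hD : D ∈ T) (hd : Disjoint B D) : N T (B ∪ D) = op (N T B) (N T D) := by
  funext k
  obtain ⟨a, rfl | rfl⟩ := Nat.even_or_odd' k
  · have e : S T (B ∪ D) (2*a) = (S T B (2*a) ∪ S T D (2*a)) ∪ P T B D a a := by
      ext L
      rw [mem_S_union hT hB hD hd, mem_union, mem_union, or_assoc]
      refine or_congr Iff.rfl (or_congr Iff.rfl ?_)
      constructor
      · rintro ⟨i, j, h1, h2, h3, h⟩
        obtain rfl : i = a := by omega
        obtain rfl : j = i := by omega
        exact h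
      · intro h; exact ⟨a, a, by omega, by omega, by omega, h⟩
    simp only [op, B_even, N]
    rw [e, card_union_of_disjoint (dis2 T hd _ _ _), card_union_of_disjoint (dis1 T hd _),
      card_P T hd]
    push_cast; ring
  · have e : S T (B ∪ D) (2*a+1) =
        (S T B (2*a+1) ∪ S T D (2*a+1)) ∪ (P T B D (a+1) a ∪ P T B D a (a+1)) := by
      ext L
      rw [mem_S_union hT hB hD hd, mem_union, mem_union, mem_union, or_assoc]
      refine or_congr Iff.rfl (or_congr Iff.rfl ?_)
      constructor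
      · rintro ⟨i, j, h1, h2, h3, h⟩
        rcases Nat.le_total i j with h4 | h4
        · obtain rfl : i = a := by omega
          obtain rfl : j = i + 1 := by omega
          exact Or.inr h
        · obtain rfl : j = a := by omega
          obtain rfl : i = j + 1 := by omega
          exact Or.inl h
      · rintro (h | h)
        · exact ⟨a+1, a, by omega, by omega, by omega, h⟩
        · exact ⟨a, a+1, by omega, by omega, by omega, h⟩
    have d3 : Disjoint (P T B D (a+1) a) (P T B D a (a+1)) := by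
      rw [disjoint_left]
      intro L h1 h2
      have := ((mem_P hd).1 h1).2.2.2.1
      have := ((mem_P hd).1 h2).2.2.2.1
      omega
    simp only [op, B_odd, N]
    rw [e, card_union_of_disjoint (disjoint_union_right.2 ⟨dis2 T hd _ _ _, dis2 T hd _ _ _⟩),
      card_union_of_disjoint (dis1 T hd _), card_union_of_disjoint d3, card_P T hd, card_P T hd]
    push_cast; ring

lemma N_single (T : Finset (Finset α)) (x : α) : N T {x} = c 1 := by
  funext k
  rw [c1, N]
  split_ifs with h
  · have : S T {x} k = {{x}} := by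
      ext L
      rw [mem_S, mem_singleton]
      constructor
      · rintro ⟨h1, h2, _⟩
        rcases subset_singleton_iff.1 h1 with e | e
        · exact absurd e h2.ne.ne_empty
        · exact e
      · rintro rfl
        exact ⟨subset_rfl, Ev.leaf x, by rw [h, card_singleton]⟩
    rw [this]; simp
  · have : S T {x} k = ∅ := by
      apply eq_empty_of_forall_notMem
      intro L hL
      obtain ⟨h1, h2, h3⟩ := mem_S.1 hL
      rcases subset_singleton_iff.1 h1 with e | e
      · exact absurd e h2.ne.ne_empty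
      · rw [e, card_singleton] at h3; exact h h3.symm
    rw [this]; simp

lemma N_le {T : Finset (Finset α)} (hT : Lam T) (hne : ∀ A ∈ T, A.Nonempty)
    (hs : ∀ A ∈ T, 2 ≤ A.card → ∃ B ∈ T, ∃ D ∈ T, Disjoint B D ∧ B ∪ D = A) (n : ℕ) :
    ∀ A ∈ T, A.card = n → ∀ k, N T A k ≤ c n k := by
  induction n using Nat.strong_induction_on with
  | _ n ih =>
    intro A hA hn k
    rcases Nat.lt_or_ge A.card 2 with h | h
    · have := (hne A hA).card_pos
      obtain ⟨x, rfl⟩ := card_eq_one.1 (by omega : A.card = 1)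
      rw [N_single, ← hn, card_singleton]
    · obtain ⟨B, hB, D, hD, hd, rfl⟩ := hs A hA h
      rw [card_union_of_disjoint hd] at hn
      have p1 := (hne B hB).card_pos
      have p2 := (hne D hD).card_pos
      rw [N_union hT hB hD hd]
      exact (op_mono (N_nonneg _ _) (N_nonneg _ _) (ih _ (by omega) B hB rfl)
        (ih _ (by omega) D hD rfl) k).trans (op_le n _ _ hn k)

lemma bal {T : Finset (Finset α)} (hT : Lam T) (hne : ∀ A ∈ T, A.Nonempty)
    (hb : ∀ A ∈ T, ∀ B ∈ T, B ⊂ A → (∀ D ∈ T, B ⊆ D → D ⊆ A → D = B ∨ D = A) →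
          A.card ≤ 2 * B.card + 1 ∧ 2 * B.card ≤ A.card + 1)
    {B D : Finset α} (hB : B ∈ T) (hD : D ∈ T) (hd : Disjoint B D) (hA : B ∪ D ∈ T) :
    B.card ≤ D.card + 1 ∧ D.card ≤ B.card + 1 := by
  have p2 := (hne D hD).card_pos
  have hc := card_union_of_disjoint hd
  have := hb _ hA B hB ?_ ?_
  · omega
  · refine ⟨subset_union_left, fun h => ?_⟩
    have := card_le_card h
    omega
  · intro D' hD' h1 h2
    rcases hT.1 D' hD' D hD with h | h | h
    · obtain ⟨x, hx⟩ := hne B hB
      exact absurd (h (h1 hx)) (disjoint_left.1 hd hx)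
    · right; exact Subset.antisymm h2 (union_subset h1 h)
    · left
      refine Subset.antisymm (fun x hx => ?_) h1
      rcases mem_union.1 (h2 hx) with h3 | h3
      · exact h3
      · exact absurd h3 (disjoint_left.1 h hx)

lemma N_eq {T : Finset (Finset α)} (hT : Lam T) (hne : ∀ A ∈ T, A.Nonempty)
    (hs : ∀ A ∈ T, 2 ≤ A.card → ∃ B ∈ T, ∃ D ∈ T, Disjoint B D ∧ B ∪ D = A)
    (hb : ∀ A ∈ T, ∀ B ∈ T, B ⊂ A → (∀ D ∈ T, B ⊆ D → D ⊆ A → D = B ∨ D = A) →
          A.card ≤ 2 * B.card + 1 ∧ 2 * B.card ≤ A.card + 1) (n : ℕ) :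
    ∀ A ∈ T, A.card = n → N T A = c n ∧ Ev T A := by
  induction n using Nat.strong_induction_on with
  | _ n ih =>
    intro A hA hn
    rcases Nat.lt_or_ge A.card 2 with h | h
    · have := (hne A hA).card_pos
      obtain ⟨x, rfl⟩ := card_eq_one.1 (by omega : A.card = 1)
      rw [N_single, ← hn, card_singleton]
      exact ⟨rfl, Ev.leaf x⟩
    · obtain ⟨B, hB, D, hD, hd, rfl⟩ := hs A hA h
      rw [card_union_of_disjoint hd] at hn
      have p1 := (hne B hB).card_pos
      have p2 := (hne D hD).card_pos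
      obtain ⟨b1, b2⟩ := bal hT hne hb hB hD hd hA
      obtain ⟨i1, e1⟩ := ih _ (by omega) B hB rfl
      obtain ⟨i2, e2⟩ := ih _ (by omega) D hD rfl
      refine ⟨?_, Ev.node' hd e1 e2 b2 b1 ⟨hne B hB, B, hB, ?_⟩ ⟨hne D hD, D, hD, ?_⟩⟩
      · rw [N_union hT hB hD hd, i1, i2, op_bal b1 b2, hn]
      · exact (inter_eq_left.2 subset_union_left).symm
      · exact (inter_eq_left.2 subset_union_right).symm

end

lemma set_eq {k n : ℕ} {F : Finset (Finset (Fin k))} {T : Finset (Finset (Fin n))}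
    (hF : Lam F) (hT : Lam T) (hne : ∀ A ∈ F, A.Nonempty) (hev : Ev F univ) :
    {L : Finset (Fin n) | ∃ f : Fin k → Fin n, Function.Injective f ∧
          Finset.univ.image f = L ∧
          ∀ B : Finset (Fin k), B ∈ F ↔ (B.Nonempty ∧ ∃ A ∈ T, B.image f = A ∩ L)}
      = ↑(S T univ k) := by
  have tr : ∀ B, InTr F univ B ↔ B ∈ F := by
    intro B
    constructor
    · rintro ⟨_, A, hA, rfl⟩; rwa [inter_univ]
    · intro h; exact ⟨hne B h, B, h, (inter_univ B).symm⟩
  ext L
  simp only [Set.mem_setOf_eq, mem_coe, mem_S]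
  constructor
  · rintro ⟨f, hf, rfl, h⟩
    refine ⟨subset_univ _, transport hF f hf hev ?_, ?_⟩
    · intro B hB
      obtain ⟨h1, h2⟩ := (h B).1 ((tr B).1 hB)
      exact ⟨h1.image f, h2⟩
    · rw [card_image_of_injective _ hf, card_univ, Fintype.card_fin]
  · rintro ⟨_, h1, h2⟩
    obtain ⟨f, hf, im, h⟩ := iso hF hT hev L h1 (by rw [h2, card_univ, Fintype.card_fin])
    refine ⟨f, fun a b e => hf (by simp) (by simp) e, im, fun B => ?_⟩
    rw [← tr, h B (subset_univ _), InTr, image_nonempty]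

end Pool.Agent.H.MP_f2fe2b_co
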